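import Pool.Agent.X12.Cyc

/-!
# The conjectured values of the quadratic-residue product at twelfth roots of unity fail

For `p = 397` the least solution of `3 x ^ 2 + 1 = 397 y ^ 2` is `(23, 2)`, but (because of the class
number of `ℚ(√1191)`) the absolute values of `S_397` at the primitive twelfth roots of unity are the
cubes of `2 √397 ∓ 23 √3`.  Each of the four conjectured identities would imply
`S ^ 4 = (3175 ∓ 92 √1191) ^ 2`, an integral relation between roots of unity of order `4764`; it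
fails modulo a prime over `14293 ≡ 1 (mod 4764)`.
-/

set_option autoImplicit false

namespace Pool.Agent.Results.MP_8a3680_nt.CounterexampleAt397

open Complex Finset Polynomial Pool.Agent.X12

/-- `S_p(x)`, the product of `x - exp (2 π i k² / p)` over `1 ≤ k ≤ (p - 1) / 2`. -/
noncomputable def S (p : ℕ) (x : ℂ) : ℂ :=
  ∏ k ∈ Finset.Icc 1 ((p - 1) / 2), (x - exp (2 * Real.pi * I * (k : ℂ) ^ 2 / p))

/-- `N_ε(p)`, the number of `1 ≤ k < p / 4` with `(k/p) = ε`. -/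
noncomputable def N (ε : ℤ) (p : ℕ) [Fact p.Prime] : ℕ :=
  ((Finset.range p).filter (fun k => 1 ≤ k ∧ 4 * k < p ∧ legendreSym p k = ε)).card

/-- `(x, y)` is the least solution in positive integers of `3 x² + 1 = p y²`. -/
def LeastSolution (p x y : ℕ) : Prop :=
  0 < x ∧ 0 < y ∧ 3 * x ^ 2 + 1 = p * y ^ 2 ∧
    ∀ x' y' : ℕ, 0 < x' → 0 < y' → 3 * x' ^ 2 + 1 = p * y' ^ 2 → x ≤ x' ∧ y ≤ y'

instance fact397 : Fact (Nat.Prime 397) := ⟨by norm_num⟩
instance fact14293 : Fact (Nat.Prime 14293) := ⟨by norm_num⟩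

/-- the root of unity of order `4764` -/
noncomputable def z : ℂ := exp (2 * Real.pi * I / (4764 : ℕ))

lemma hz : IsPrimitiveRoot z 4764 := Complex.isPrimitiveRoot_exp 4764 (by norm_num)

lemma z_pow_1 : z ^ 397 = exp (2 * Real.pi * I / 12) := by
  rw [z, ← Complex.exp_nat_mul]
  congr 1
  push_cast
  ring

lemma z_pow_neg1 : z ^ 4367 = exp (-(2 * Real.pi * I / 12)) := by
  have h : z ^ 4367 * z ^ 397 = 1 := by
    rw [← pow_add]; exact hz.pow_eq_one
  rw [Complex.exp_neg, ← z_pow_1]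
  exact eq_inv_of_mul_eq_one_left h

lemma z_pow_5 : z ^ 1985 = exp (2 * Real.pi * I * 5 / 12) := by
  rw [z, ← Complex.exp_nat_mul]
  congr 1
  push_cast
  ring

lemma z_pow_neg5 : z ^ 2779 = exp (-(2 * Real.pi * I * 5 / 12)) := by
  have h : z ^ 2779 * z ^ 1985 = 1 := by
    rw [← pow_add]; exact hz.pow_eq_one
  rw [Complex.exp_neg, ← z_pow_5]
  exact eq_inv_of_mul_eq_one_left h

lemma z_pow_12 : z ^ 12 = exp (2 * Real.pi * I / 397) := by
  rw [z, ← Complex.exp_nat_mul]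
  congr 1
  push_cast
  ring

lemma z_gauss (k : ℕ) :
    exp (2 * Real.pi * I * (k : ℂ) ^ 2 / (397 : ℕ)) = z ^ (12 * (k ^ 2 % 397)) := by
  have h397 : (z ^ 12) ^ 397 = 1 := by rw [← pow_mul]; exact hz.pow_eq_one
  rw [pow_mul, ← pow_eq_pow_mod _ h397, z_pow_12, ← Complex.exp_nat_mul]
  congr 1
  push_cast
  ring

/-- the product as a polynomial in the root of unity -/
noncomputable def P (w : ℕ) : ℤ[X] := ∏ k ∈ Finset.Icc 1 198, (X ^ w - X ^ (12 * (k ^ 2 % 397)))

lemma aeval_P (w : ℕ) : aeval z (P w) = S 397 (z ^ w) := by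
  unfold P S
  rw [map_prod]
  refine Finset.prod_congr rfl fun k _ => ?_
  rw [z_gauss, map_sub, map_pow, map_pow, aeval_X]

lemma pow_cast {a e v : ℕ} (h : a ^ e % 14293 = v) : ((a : ℕ) : ZMod 14293) ^ e = (v : ℕ) := by
  rw [← h, ZMod.natCast_mod, Nat.cast_pow]

lemma pow_ne {a e : ℕ} (h : a ^ e % 14293 ≠ 1) : ((a : ℕ) : ZMod 14293) ^ e ≠ 1 := by
  intro h1
  have h2 : ((a ^ e : ℕ) : ZMod 14293) = ((1 : ℕ) : ZMod 14293) := by push_cast; exact h1
  rw [ZMod.natCast_eq_natCast_iff'] at h2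
  exact h h2

/-- an element of order `4764` modulo `14293` -/
lemma hg : IsPrimitiveRoot ((216 : ℕ) : ZMod 14293) 4764 := by
  have h : orderOf ((216 : ℕ) : ZMod 14293) = 4764 := by
    apply orderOf_eq_of_pow_and_pow_div_prime (by norm_num)
    · rw [pow_cast (a := 216) (e := 4764) (v := 1) (by decide +kernel)]
      norm_num
    · intro q hq hd
      have h2 : q ∣ 2 * (2 * (3 * 397)) := by norm_num at hd ⊢; exact hd
      rcases hq.dvd_mul.1 h2 with h3 | h3
      · rw [(Nat.prime_dvd_prime_iff_eq hq (by norm_num)).1 h3]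
        exact pow_ne (by decide +kernel)
      rcases hq.dvd_mul.1 h3 with h3 | h3
      · rw [(Nat.prime_dvd_prime_iff_eq hq (by norm_num)).1 h3]
        exact pow_ne (by decide +kernel)
      rcases hq.dvd_mul.1 h3 with h3 | h3
      · rw [(Nat.prime_dvd_prime_iff_eq hq (by norm_num)).1 h3]
        exact pow_ne (by decide +kernel)
      · rw [(Nat.prime_dvd_prime_iff_eq hq (by norm_num)).1 h3]
        exact pow_ne (by decide +kernel)
  rw [← h]
  exact IsPrimitiveRoot.orderOf _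

lemma core (w : ℕ) (v : ZMod 14293) (hv : aeval ((216 : ℕ) : ZMod 14293) (P w) = v) (ε : ℤ)
    (hε : ε = 1 ∨ ε = -1)
    (hS : (S 397 (z ^ w)) ^ 4 =
      (3175 - 92 * ε * (((Real.sqrt 3 : ℝ) : ℂ) * ((Real.sqrt 397 : ℝ) : ℂ))) ^ 2) :
    v ^ 4 = (3175 - 92 * 6533) ^ 2 ∨ v ^ 4 = (3175 + 92 * 6533) ^ 2 := by
  have hz12 : IsPrimitiveRoot (z ^ 12) 397 := hz.pow (by norm_num) (by norm_num)
  obtain ⟨G, hG⟩ := exists_gauss (p := 397) (by norm_num) hz12
  rw [qc_neg_one_of_one (p := 397) (by norm_num)] at hG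
  -- the square root of `1191` as a polynomial in the root of unity
  set T : ℤ[X] := G * (2 * X ^ 397 - X ^ 1191) with hT
  set u : ℂ := z ^ 397 with hu
  have hu12 : IsPrimitiveRoot u 12 := hz.pow (by norm_num) (by norm_num)
  have hu6 : u ^ 6 = -1 := by
    have h1 : (u ^ 6) ^ 2 = 1 := by rw [← pow_mul]; exact hu12.pow_eq_one
    rcases sq_eq_sq_iff_eq_or_eq_neg.1 (h1.trans (one_pow 2).symm) with h | h
    · exact absurd h (hu12.pow_ne_one_of_pos_of_lt (by norm_num) (by norm_num))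
    · exact h
  have hw : u ^ 4 - u ^ 2 + 1 = 0 := by
    have h1 : (u ^ 2 + 1) * (u ^ 4 - u ^ 2 + 1) = 0 := by linear_combination hu6
    rcases mul_eq_zero.1 h1 with h | h
    · exfalso
      have h2 : u ^ 4 = 1 := by
        have : u ^ 2 = -1 := by linear_combination h
        rw [show 4 = 2 * 2 by norm_num, pow_mul, this]; norm_num
      exact hu12.pow_ne_one_of_pos_of_lt (by norm_num) (by norm_num) h2
    · exact h
  have hT2 : (aeval z T) ^ 2 = 1191 := by
    rw [hT, map_mul, mul_pow, hG]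
    simp only [map_sub, map_mul, map_pow, aeval_X, map_ofNat]
    rw [show z ^ 1191 = u ^ 3 by rw [hu, ← pow_mul], ← hu]
    push_cast
    linear_combination (-4 * 397) * hw + 397 * hu6
  set r : ℂ := ((Real.sqrt 3 : ℝ) : ℂ) * ((Real.sqrt 397 : ℝ) : ℂ) with hr
  have hr2 : r ^ 2 = 1191 := by
    have h1 : (((Real.sqrt 3 : ℝ) : ℂ)) ^ 2 = 3 := by
      rw [← Complex.ofReal_pow, Real.sq_sqrt (by norm_num)]; norm_num
    have h2 : (((Real.sqrt 397 : ℝ) : ℂ)) ^ 2 = 397 := by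
      rw [← Complex.ofReal_pow, Real.sq_sqrt (by norm_num)]; norm_num
    rw [hr, mul_pow, h1, h2]; norm_num
  have hsign : ∃ η : ℤ, (η = 1 ∨ η = -1) ∧ (ε : ℂ) * r = η * aeval z T := by
    rcases sq_eq_sq_iff_eq_or_eq_neg.1 (hr2.trans hT2.symm) with h | h
    · exact ⟨ε, hε, by rw [h]⟩
    · refine ⟨-ε, ?_, by rw [h]; push_cast; ring⟩
      rcases hε with h' | h'
      · right; rw [h']
      · left; rw [h']; norm_num
  obtain ⟨η, hη, hηr⟩ := hsign
  -- transfer
  have h1 : aeval ((216 : ℕ) : ZMod 14293) (T ^ 2 - 1191) = 0 := by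
    apply transfer (n := 4764) (by norm_num) hz hg
    simp only [map_sub, map_pow, hT2, map_ofNat]
    ring
  have h2 : aeval ((216 : ℕ) : ZMod 14293) ((P w) ^ 4 - (3175 - 92 * C η * T) ^ 2) = 0 := by
    apply transfer (n := 4764) (by norm_num) hz hg
    simp only [map_sub, map_pow, map_mul, map_ofNat, aeval_P, eq_intCast, map_intCast]
    rw [hS, mul_assoc, hηr]
    ring
  simp only [map_sub, map_pow, map_mul, map_ofNat, eq_intCast, map_intCast, hv] at h1 h2
  set t := aeval ((216 : ℕ) : ZMod 14293) T with ht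
  have h3 : (t - 6533) * (t + 6533) = 0 := by
    have h321 : (1191 : ZMod 14293) = 6533 ^ 2 := by decide +kernel
    rw [h321] at h1
    linear_combination h1
  have h4 : v ^ 4 = (3175 - 92 * (η : ZMod 14293) * t) ^ 2 := by linear_combination h2
  rcases mul_eq_zero.1 h3 with h5 | h5
  · have h6 : t = 6533 := by linear_combination h5
    rw [h6] at h4
    rcases hη with h7 | h7
    · left; rw [h4, h7]; push_cast; ring
    · right; rw [h4, h7]; push_cast; ring
  · have h6 : t = -6533 := by linear_combination h5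
    rw [h6] at h4
    rcases hη with h7 | h7
    · right; rw [h4, h7]; push_cast; ring
    · left; rw [h4, h7]; push_cast; ring

lemma eval_P (w a : ℕ) (ha : 216 ^ w % 14293 = a) :
    aeval ((216 : ℕ) : ZMod 14293) (P w) =
      ((∏ k ∈ Finset.Icc 1 198, ((a : ℤ) - 333 ^ (k ^ 2 % 397)) : ℤ) : ZMod 14293) := by
  unfold P
  rw [map_prod]
  push_cast
  refine Finset.prod_congr rfl fun k _ => ?_
  have h3 : ((216 : ℕ) : ZMod 14293) ^ 12 = ((333 : ℕ) : ZMod 14293) := pow_cast (by decide +kernel)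
  have h4 := pow_cast ha
  push_cast at h3 h4
  rw [map_sub, map_pow, map_pow, aeval_X, h4, pow_mul, h3]

lemma cast_of_mod {a b : ℤ} (h : a % 14293 = b) : (a : ZMod 14293) = b := by
  have := ZMod.intCast_mod a 14293
  rw [← h]
  exact this.symm

lemma least : LeastSolution 397 23 2 := by
  refine ⟨by norm_num, by norm_num, by norm_num, ?_⟩
  intro x y hx hy h
  have hy2 : 2 ≤ y := by
    by_contra hc
    have hy1 : y = 1 := by omega
    rw [hy1] at h
    have h1 : x ^ 2 = 132 := by omega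
    have h2 : x ≤ 11 := by nlinarith
    interval_cases x <;> omega
  refine ⟨?_, hy2⟩
  by_contra hc
  push Not at hc
  have h3 : x ≤ 22 := by omega
  nlinarith

lemma sign_pow (n : ℕ) : (I * (-1 : ℂ) ^ n) ^ 4 = 1 := by
  rw [mul_pow, I_pow_four, one_mul, ← pow_mul, mul_comm, pow_mul]
  norm_num

lemma sqrt_rel (ε : ℤ) (hε : ε = 1 ∨ ε = -1) :
    (((23 : ℕ) : ℂ) * ((Real.sqrt 3 : ℝ) : ℂ) - ε * (((2 : ℕ) : ℂ) *
      ((Real.sqrt (397 : ℕ) : ℝ) : ℂ))) ^ 4 =
      (3175 - 92 * ε * (((Real.sqrt 3 : ℝ) : ℂ) * ((Real.sqrt 397 : ℝ) : ℂ))) ^ 2 := by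
  have h1 : (((Real.sqrt 3 : ℝ) : ℂ)) ^ 2 = 3 := by
    rw [← Complex.ofReal_pow, Real.sq_sqrt (by norm_num)]; norm_num
  have h2 : (((Real.sqrt 397 : ℝ) : ℂ)) ^ 2 = 397 := by
    rw [← Complex.ofReal_pow, Real.sq_sqrt (by norm_num)]; norm_num
  have h3 : (ε : ℂ) ^ 2 = 1 := by
    rcases hε with h | h <;> rw [h] <;> norm_num
  push_cast
  rw [show (4 : ℕ) = 2 * 2 by norm_num, pow_mul]
  congr 1
  linear_combination 529 * h1 + 4 * (ε : ℂ) ^ 2 * h2 + 1588 * h3

lemma fail (w a : ℕ) (v : ℤ) (ha : 216 ^ w % 14293 = a)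
    (hv : (∏ k ∈ Finset.Icc 1 198, ((a : ℤ) - 333 ^ (k ^ 2 % 397))) % 14293 = v)
    (hne1 : (v : ZMod 14293) ^ 4 ≠ (3175 - 92 * 6533) ^ 2)
    (hne2 : (v : ZMod 14293) ^ 4 ≠ (3175 + 92 * 6533) ^ 2)
    (ε : ℤ) (hε : ε = 1 ∨ ε = -1) (n : ℕ) :
    S 397 (z ^ w) ≠ (I * (-1) ^ n) * (((23 : ℕ) : ℂ) * ((Real.sqrt 3 : ℝ) : ℂ) -
      ε * (((2 : ℕ) : ℂ) * ((Real.sqrt (397 : ℕ) : ℝ) : ℂ))) := by
  intro h
  have h1 : aeval ((216 : ℕ) : ZMod 14293) (P w) = v := by
    rw [eval_P w a ha, cast_of_mod hv]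
  have h2 := core w v h1 ε hε (by rw [h, mul_pow, sign_pow, one_mul, sqrt_rel ε hε])
  rcases h2 with h2 | h2
  · exact hne1 h2
  · exact hne2 h2

/-- **Q1 is false**, at `p = 397`: there is a prime `p ≡ 13 (mod 24)` with least solution `(x, y)` of
`3 x² + 1 = p y²` for which none of the four identities holds. -/
theorem result : ∃ (p : ℕ) (_ : Fact p.Prime) (x y : ℕ), p % 24 = 13 ∧ LeastSolution p x y ∧
    S p (exp (2 * Real.pi * I / 12)) ≠ I * (-1) ^ ((p - 5) / 8 + N (-1) p) *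
      ((x : ℂ) * ((Real.sqrt 3 : ℝ) : ℂ) - (y : ℂ) * ((Real.sqrt p : ℝ) : ℂ)) ∧
    S p (exp (-(2 * Real.pi * I / 12))) ≠ I * (-1) ^ ((p - 5) / 8 + N 1 p) *
      ((x : ℂ) * ((Real.sqrt 3 : ℝ) : ℂ) - (y : ℂ) * ((Real.sqrt p : ℝ) : ℂ)) ∧
    S p (exp (2 * Real.pi * I * 5 / 12)) ≠ I * (-1) ^ ((p - 5) / 8 + N 1 p) *
      ((x : ℂ) * ((Real.sqrt 3 : ℝ) : ℂ) + (y : ℂ) * ((Real.sqrt p : ℝ) : ℂ)) ∧
    S p (exp (-(2 * Real.pi * I * 5 / 12))) ≠ I * (-1) ^ ((p - 5) / 8 + N (-1) p) *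
      ((x : ℂ) * ((Real.sqrt 3 : ℝ) : ℂ) + (y : ℂ) * ((Real.sqrt p : ℝ) : ℂ)) := by
  refine ⟨397, fact397, 23, 2, by norm_num, least, ?_, ?_, ?_, ?_⟩
  · have h := fail 397 5020 10595 (by decide +kernel) (by decide +kernel) (by decide +kernel)
      (by decide +kernel) 1 (Or.inl rfl) ((397 - 5) / 8 + N (-1) 397)
    rw [z_pow_1] at h
    push_cast at h ⊢
    rw [one_mul] at h
    exact h
  · have h := fail 4367 10771 3698 (by decide +kernel) (by decide +kernel) (by decide +kernel)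
      (by decide +kernel) 1 (Or.inl rfl) ((397 - 5) / 8 + N 1 397)
    rw [z_pow_neg1] at h
    push_cast at h ⊢
    rw [one_mul] at h
    exact h
  · have h := fail 1985 3522 8994 (by decide +kernel) (by decide +kernel) (by decide +kernel)
      (by decide +kernel) (-1) (Or.inr rfl) ((397 - 5) / 8 + N 1 397)
    rw [z_pow_5] at h
    push_cast at h ⊢
    rw [neg_one_mul, sub_neg_eq_add] at h
    exact h
  · have h := fail 2779 9273 5299 (by decide +kernel) (by decide +kernel) (by decide +kernel)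
      (by decide +kernel) (-1) (Or.inr rfl) ((397 - 5) / 8 + N (-1) 397)
    rw [z_pow_neg5] at h
    push_cast at h ⊢
    rw [neg_one_mul, sub_neg_eq_add] at h
    exact h

end Pool.Agent.Results.MP_8a3680_nt.CounterexampleAt397
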